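import Pool.Agent.K1H49.PL.Gen

/-! Project PL, general case, piece BAS: degree zero. -/

set_option autoImplicit false

namespace Pool.Agent.K1H16.PLG

open Pool.Agent.K1H49.PL

universe u

theorem t_BAS (h1 : S_IDX) (h2 : S_LEN.{u}) : S_BAS.{u} := by
  classical
  intro M Y hsat hec hsm ι K _ _ dg hPH X x t
  haveI hsmV : Small.{0} {S : Set (X ⊕ ((Σ k : Option K, LN (dgo 0 dg k)) × ι) → M) // Y.D S} :=
    hsm (X ⊕ ((Σ k : Option K, LN (dgo 0 dg k)) × ι))
  obtain ⟨I, lt, hBT, hcol⟩ := h1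
    (Set (Shrink.{0} {S : Set (X ⊕ ((Σ k : Option K, LN (dgo 0 dg k)) × ι) → M) // Y.D S}))
  obtain ⟨w, s, hws⟩ := h2 Y hsat lt hBT x t
  obtain ⟨s', hs1, hs2⟩ := hPH (X ⊕ (I × ι)) (Sum.elim x (fun p => w p.1 p.2)) s
  -- the conditions
  have hA : ∀ n S, Y.D S → HK x t n S → HX lt x w s' n S := by
    intro n S hS hHK E0 E hE0 hE
    let f : X ⊕ (Option K × LN n × ι) → (X ⊕ (I × ι)) ⊕ (K × LN n × ι) := fun p =>
      match p with
      | Sum.inl a => Sum.inl (Sum.inl a)
      | Sum.inr (none, η, i) => Sum.inl (Sum.inr (E0 η, i))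
      | Sum.inr (some k, η, i) => Sum.inr (k, η, i)
    have hcomp : ∀ (r : K → Nd → ι → M) (F : K → LN n → Nd),
        (Sum.elim (Sum.elim x (fun p : I × ι => w p.1 p.2))
          (fun p : K × LN n × ι => r p.1 (F p.1 p.2.1) p.2.2)) ∘ f =
        Sum.elim x (fun p : Option K × LN n × ι =>
          p.1.elim (w (E0 p.2.1) p.2.2) (fun k => r k (F k p.2.1) p.2.2)) := by
      intro r F
      funext p
      rcases p with a | ⟨_ | k, η, i⟩
      · rfl
      · rfl
      · rfl
    have h3 := hs1 n {v | v ∘ f ∈ S} (Y.pull f hS) (by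
      intro F hF
      show _ ∘ f ∈ S
      rw [hcomp]
      exact hws n S hS hHK E0 F hE0 hF) E hE
    have h4 : _ ∘ f ∈ S := h3
    rw [hcomp] at h4
    exact h4
  -- homogeneity for fixed position
  have hB : ∀ (π : I) S, Y.D S → ∀ E E' : ∀ k, LN (dg k) → Nd, (∀ k, Pt ndl _ (E k)) →
      (∀ k, Pt ndl _ (E' k)) → tpx (a := 0) (dg := dg) x w s' (fun _ => π) E ∈ S →
      tpx (a := 0) (dg := dg) x w s' (fun _ => π) E' ∈ S := by
    intro π S hS E E' hE hE' hmem
    let g : X ⊕ ((Σ k : Option K, LN (dgo 0 dg k)) × ι) →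
        (X ⊕ (I × ι)) ⊕ ((Σ k, LN (dg k)) × ι) := fun p =>
      match p with
      | Sum.inl a => Sum.inl (Sum.inl a)
      | Sum.inr (⟨none, _⟩, i) => Sum.inl (Sum.inr (π, i))
      | Sum.inr (⟨some k, η⟩, i) => Sum.inr (⟨k, η⟩, i)
    have hcomp : ∀ (F : ∀ k, LN (dg k) → Nd),
        (tpl (Sum.elim x (fun p : I × ι => w p.1 p.2)) s' F) ∘ g =
        tpx (a := 0) (dg := dg) x w s' (fun _ => π) F := by
      intro F
      funext p
      rcases p with a | ⟨⟨_ | k, η⟩, i⟩
      · rfl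
      · rfl
      · rfl
    have h3 := hs2 {v | v ∘ g ∈ S} (Y.pull g hS) E E' hE hE' (by
      show _ ∘ g ∈ S
      rw [hcomp]
      exact hmem)
    have h4 : _ ∘ g ∈ S := h3
    rw [hcomp] at h4
    exact h4
  have hid : ∀ k, Pt ndl (dg k) (fun η : LN (dg k) => η.1) := fun k η η' d h => h
  -- the colouring
  obtain ⟨Es, hCpy, c, hc⟩ := hcol fun π =>
    {z | tpx (a := 0) (dg := dg) x w s' (fun _ => π) (fun k η => η.1) ∈ ((equivShrink _).symm z).1}
  have hcolS : ∀ (π π' : Nd) S, Y.D S →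
      tpx (a := 0) (dg := dg) x w s' (fun _ => Es π) (fun k η => η.1) ∈ S →
      tpx (a := 0) (dg := dg) x w s' (fun _ => Es π') (fun k η => η.1) ∈ S := by
    intro π π' S hS hmem
    have h3 := (hc π).trans (hc π').symm
    have h4 := Set.ext_iff.1 h3 (equivShrink _ ⟨S, hS⟩)
    simp only [Set.mem_ofPred_eq, Equiv.symm_apply_apply] at h4
    exact h4.1 hmem
  refine ⟨fun o => o.elim (fun π => w (Es π)) (fun k => s' k), ?_, ?_⟩
  · intro n S hS hHK E hE
    have h3 := hA n S hS hHK (fun η => Es (E none η)) (fun k => E (some k)) (by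
      intro η η' d h
      exact hCpy _ _ d (hE none η η' d h)) (fun k => hE (some k))
    have h4 : Sum.elim x (fun p : Option K × LN n × ι =>
        p.1.elim (w (Es (E none p.2.1)) p.2.2) (fun k => s' k (E (some k) p.2.1) p.2.2)) =
        Sum.elim x (fun p : Option K × LN n × ι =>
          (p.1.elim (fun π => w (Es π)) (fun k => s' k)) (E p.1 p.2.1) p.2.2) := by
      funext p
      rcases p with a | ⟨_ | k, η, i⟩
      · rfl
      · rfl
      · rfl
    rw [h4] at h3
    exact h3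
  · intro S hS E E' hE hE' hmem
    have hrw : ∀ F : ∀ k : Option K, LN (dgo 0 dg k) → Nd,
        tpl x (fun o : Option K => o.elim (fun π => w (Es π)) (fun k => s' k)) F =
        tpx (a := 0) (dg := dg) x w s' (fun _ => Es (F none (rt 0))) (fun k => F (some k)) := by
      intro F
      funext p
      rcases p with a | ⟨⟨_ | k, η⟩, i⟩
      · rfl
      · have hη : η = rt 0 := Subtype.ext (List.length_eq_zero_iff.1 (Nat.le_zero.1 η.2))
        subst hη
        rfl
      · rfl
    rw [hrw] at hmem ⊢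
    have h3 := hB _ S hS _ (fun k η => η.1) (fun k => hE (some k)) hid hmem
    have h4 := hcolS _ (E' none (rt 0)) S hS h3
    exact hB _ S hS _ _ hid (fun k => hE' (some k)) h4

end Pool.Agent.K1H16.PLG
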